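import Mathlib
import Pool.Agent.Helper292.ForceCH

/-!
# The tower, as a sentence of the forcing language
-/

set_option autoImplicit false

open Pool.Agent.Helper292.ForceCH

namespace Pool.Agent.Helper835.TS

universe u

section

variable {P : Type u} [Preorder P]

/-- The subset of `ω₁` named by `U` is open in the order topology: each `c ∈ U` which is not the
least element has some `b < c` such that all the `x` with `b < x ≤ c` are in `U`. -/
def IsOpenName (U : Om → Set P) : Set P :=
  fall fun c : Om => fimp (fand (meets (U c)) (fground (∃ b, b < c)))
    (fex fun b : Om => fand (fground (b < c))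
      (fall fun x : Om => fimp (fground (b < x ∧ x ≤ c)) (meets (U x))))

/-- There is `b < c` such that almost all elements `m` of `T c ∖ T b` satisfy `B m`. -/
def Follows (T : Om → ℕ → Set P) (c : Om) (B : ℕ → Set P) : Set P :=
  fex fun b : Om => fand (fground (b < c)) (fex fun k : ℕ => fall fun m : ℕ =>
    fimp (fand (fground (k ≤ m)) (fand (meets (T c m)) (fnot (meets (T b m))))) (B m))

end

variable (P : Type u) [Preorder P]

/-- In the extension there are sets `T a ⊆ ℕ` for `a` in (the ground model) `ω₁` such that:
for `a < b` almost all elements of `T a` are in `T b`, and `T b ∖ T a` is infinite; the first of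
the sets is finite; for all disjoint open sets `U`, `V` in `ω₁` there is `A ⊆ ℕ` such that every
`c ∈ U` which is not the least element has `b < c` such that almost all elements of `T c ∖ T b`
are in `A`, and every `c ∈ V` which is not the least element has `b < c` such that almost all
elements of `T c ∖ T b` are not in `A`. -/
def TowerHolds : Set P :=
  fex fun T : Om → ℕ → Set P =>
    fand (fall fun a : Om => fall fun b : Om => fimp (fground (a < b))
      (fand
        (fex fun k : ℕ => fall fun m : ℕ =>
          fimp (fand (fground (k ≤ m)) (meets (T a m))) (meets (T b m)))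
        (fall fun k : ℕ => fex fun m : ℕ =>
          fand (fground (k ≤ m)) (fand (meets (T b m)) (fnot (meets (T a m)))))))
    (fand (fall fun a : Om => fimp (fground (∀ b, a ≤ b))
      (fex fun k : ℕ => fall fun m : ℕ => fimp (fground (k ≤ m)) (fnot (meets (T a m)))))
    (fall fun U : Om → Set P => fall fun V : Om → Set P =>
      fimp (fand (IsOpenName U) (fand (IsOpenName V)
          (fall fun x : Om => fnot (fand (meets (U x)) (meets (V x))))))
        (fex fun A : ℕ → Set P => fall fun c : Om => fimp (fground (∃ b, b < c))
          (fand (fimp (meets (U c)) (Follows T c fun m => meets (A m)))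
            (fimp (meets (V c)) (Follows T c fun m => fnot (meets (A m))))))))

/-- the countable chain condition -/
def CCC (P : Type u) [Preorder P] : Prop :=
  ∀ A : Set P, (∀ a ∈ A, ∀ b ∈ A, (∃ r, r ≤ a ∧ r ≤ b) → a = b) → A.Countable

end Pool.Agent.Helper835.TS
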