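import Mathlib
import Pool.Agent.Helper161.Gam.Poset
import Pool.Agent.Helper161.Gam.Lang
import Pool.Agent.Helper292.ForceCH

/-!
# The forcing notion
-/

set_option autoImplicit false

open Set Cardinal
open Pool.Agent.Helper292.ForceCH

namespace Pool.Agent.Helper835.TS

/-- coordinates of the second kind: codes -/
abbrev Co : Type := Om → Bool

/-- all coordinates -/
abbrev Kx : Type := Om ⊕ Co

/-- promises: a colour and an interval -/
abbrev Prm : Type := Bool × Om × Om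

/-- conditions, without the requirement of validity -/
@[ext] structure Raw : Type where
  n : ℕ
  D : Finset Kx
  s : Finset (Kx × ℕ)
  F : Finset (Co × Prm)

/-- the order -/
structure Rle (q p : Raw) : Prop where
  n_le : p.n ≤ q.n
  D_sub : p.D ⊆ q.D
  F_sub : p.F ⊆ q.F
  agree : ∀ k ∈ p.D, ∀ m, m < p.n → ((k, m) ∈ q.s ↔ (k, m) ∈ p.s)
  bot : ∀ a : Om, Sum.inl a ∈ p.D → (∀ b, a ≤ b) → ∀ m, p.n ≤ m → m < q.n →
    ((Sum.inl a : Kx), m) ∉ q.s
  coh : ∀ a b : Om, a < b → Sum.inl a ∈ p.D → Sum.inl b ∈ p.D → ∀ m, p.n ≤ m → m < q.n →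
    ((Sum.inl a : Kx), m) ∈ q.s → ((Sum.inl b : Kx), m) ∈ q.s
  prm : ∀ (x : Co) (c : Bool) (r g : Om), (x, (c, r, g)) ∈ p.F → ∀ m, p.n ≤ m → m < q.n →
    ((Sum.inl g : Kx), m) ∈ q.s → ((Sum.inl r : Kx), m) ∉ q.s →
    (((Sum.inr x : Kx), m) ∈ q.s ↔ c = true) ∨
      ∃ r' g', (x, (!c, r', g')) ∈ q.F ∧ r < g' ∧ g' ≤ g

/-- well-formed -/
def WF (p : Raw) : Prop := ∀ (x : Co) (c : Bool) (r g : Om), (x, (c, r, g)) ∈ p.F →
  Sum.inr x ∈ p.D ∧ Sum.inl r ∈ p.D ∧ Sum.inl g ∈ p.D ∧ r < g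

theorem Rle.of_n {q p : Raw} (h : q.n = p.n) (hD : p.D ⊆ q.D) (hF : p.F ⊆ q.F)
    (ha : ∀ k ∈ p.D, ∀ m, m < p.n → ((k, m) ∈ q.s ↔ (k, m) ∈ p.s)) : Rle q p where
  n_le := h.ge
  D_sub := hD
  F_sub := hF
  agree := ha
  bot := fun _ _ _ m h1 h2 => by omega
  coh := fun _ _ _ _ _ m h1 h2 => by omega
  prm := fun _ _ _ _ _ m h1 h2 => by omega

theorem Rle.refl (p : Raw) : Rle p p :=
  Rle.of_n rfl subset_rfl subset_rfl fun _ _ _ _ => Iff.rfl

theorem Rle.trans {r q p : Raw} (h1 : Rle r q) (h2 : Rle q p) (hq : WF q) : Rle r p where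
  n_le := h2.n_le.trans h1.n_le
  D_sub := h2.D_sub.trans h1.D_sub
  F_sub := h2.F_sub.trans h1.F_sub
  agree := fun k hk m hm => (h1.agree k (h2.D_sub hk) m (hm.trans_le h2.n_le)).trans
    (h2.agree k hk m hm)
  bot := by
    intro a ha hb m hm hm'
    by_cases hmq : m < q.n
    · rw [h1.agree _ (h2.D_sub ha) m hmq]
      exact h2.bot a ha hb m hm hmq
    · exact h1.bot a (h2.D_sub ha) hb m (not_lt.1 hmq) hm'
  coh := by
    intro a b hab ha hb m hm hm' h
    by_cases hmq : m < q.n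
    · rw [h1.agree _ (h2.D_sub ha) m hmq] at h
      rw [h1.agree _ (h2.D_sub hb) m hmq]
      exact h2.coh a b hab ha hb m hm hmq h
    · exact h1.coh a b hab (h2.D_sub ha) (h2.D_sub hb) m (not_lt.1 hmq) hm' h
  prm := by
    intro x c a g hF m hm hm' h3 h4
    by_cases hmq : m < q.n
    · obtain ⟨e1, e2, e3, _⟩ := hq x c a g (h2.F_sub hF)
      rw [h1.agree _ e3 m hmq] at h3
      rw [h1.agree _ e2 m hmq] at h4
      rcases h2.prm x c a g hF m hm hmq h3 h4 with h | ⟨r', g', h5, h6⟩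
      · left
        rw [h1.agree _ e1 m hmq]
        exact h
      · right
        exact ⟨r', g', h1.F_sub h5, h6⟩
    · exact h1.prm x c a g (h2.F_sub hF) m (not_lt.1 hmq) hm' h3 h4

/-! ### Codes -/

theorem mk_Om : #Om = ℵ₁ := by simp

theorem exists_dec : ∃ dec : Co → Prm → ℕ → Option Raw, Function.Surjective dec := by
  have hOm : #Om = ℵ₁ := mk_Om
  have hCo : #Co = 2 ^ (ℵ₁ : Cardinal.{0}) := by
    simp [Co]
  have h1 : (ℵ₁ : Cardinal.{0}) ≤ 2 ^ (ℵ₁ : Cardinal.{0}) := (Cardinal.cantor _).le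
  have h0 : (ℵ₀ : Cardinal.{0}) ≤ 2 ^ (ℵ₁ : Cardinal.{0}) := aleph0_lt_aleph_one.le.trans h1
  have hinf : Infinite Co := by
    rw [Cardinal.infinite_iff, hCo]; exact h0
  have hK : #Kx = 2 ^ (ℵ₁ : Cardinal.{0}) := by
    rw [Kx, Cardinal.mk_sum, Cardinal.lift_id, Cardinal.lift_id, hOm, hCo]
    exact Cardinal.add_eq_right h0 h1
  have hF : #(Finset Kx) = 2 ^ (ℵ₁ : Cardinal.{0}) := by
    rw [Cardinal.mk_finset_of_infinite, hK]
  have hKN : #(Kx × ℕ) = 2 ^ (ℵ₁ : Cardinal.{0}) := by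
    rw [Cardinal.mk_prod, Cardinal.lift_id, Cardinal.lift_id, hK, Cardinal.mk_nat]
    exact Cardinal.mul_aleph0_eq h0
  have hF2 : #(Finset (Kx × ℕ)) = 2 ^ (ℵ₁ : Cardinal.{0}) := by
    rw [Cardinal.mk_finset_of_infinite, hKN]
  have hPrm : #Prm ≤ ℵ₁ := by
    rw [Prm, Cardinal.mk_prod, Cardinal.mk_prod]
    simp only [Cardinal.lift_id, hOm]
    rw [Cardinal.mul_eq_self aleph0_lt_aleph_one.le]
    refine Cardinal.mul_le_of_le aleph0_lt_aleph_one.le ?_ le_rfl
    exact (Cardinal.lt_aleph0_of_finite _).le.trans aleph0_lt_aleph_one.le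
  have hCP : #(Co × Prm) ≤ 2 ^ (ℵ₁ : Cardinal.{0}) := by
    rw [Cardinal.mk_prod, Cardinal.lift_id, Cardinal.lift_id, hCo]
    exact Cardinal.mul_le_of_le h0 le_rfl (hPrm.trans h1)
  have hNP : Nonempty Prm := ⟨(true, Classical.arbitrary Om, Classical.arbitrary Om)⟩
  have hF3 : #(Finset (Co × Prm)) ≤ 2 ^ (ℵ₁ : Cardinal.{0}) := by
    rw [Cardinal.mk_finset_of_infinite]
    exact hCP
  have hRaw : #Raw ≤ 2 ^ (ℵ₁ : Cardinal.{0}) := by
    have hinj : Function.Injective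
        (fun p : Raw => (p.n, p.D, p.s, p.F)) := by
      intro p q h
      simp only [Prod.mk.injEq] at h
      obtain ⟨e1, e2, e3, e4⟩ := h
      exact Raw.ext e1 e2 e3 e4
    refine (Cardinal.mk_le_of_injective hinj).trans ?_
    rw [Cardinal.mk_prod, Cardinal.mk_prod, Cardinal.mk_prod]
    simp only [Cardinal.lift_id]
    refine Cardinal.mul_le_of_le h0 ?_ (Cardinal.mul_le_of_le h0 hF.le
      (Cardinal.mul_le_of_le h0 hF2.le hF3))
    rw [Cardinal.mk_nat]
    exact h0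
  have hOpt : #(Option Raw) ≤ 2 ^ (ℵ₁ : Cardinal.{0}) := by
    rw [Cardinal.mk_option]
    exact Cardinal.add_le_of_le h0 hRaw (Cardinal.one_le_aleph0.trans h0)
  have hle : #(Prm → ℕ → Option Raw) ≤ #Co := by
    rw [hCo]
    rw [← Cardinal.power_def, ← Cardinal.power_def]
    calc (#(Option Raw) ^ #ℕ) ^ #Prm
        ≤ ((2 ^ (ℵ₁ : Cardinal.{0})) ^ #ℕ) ^ #Prm :=
          Cardinal.power_le_power_right (Cardinal.power_le_power_right hOpt)
      _ = 2 ^ (ℵ₁ * #ℕ * #Prm) := by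
          rw [← Cardinal.power_mul, ← Cardinal.power_mul, mul_assoc]
      _ ≤ 2 ^ (ℵ₁ : Cardinal.{0}) := by
          refine Cardinal.power_le_power_left two_ne_zero ?_
          refine Cardinal.mul_le_of_le aleph0_lt_aleph_one.le ?_ hPrm
          rw [Cardinal.mk_nat]
          exact (Cardinal.mul_aleph0_eq aleph0_lt_aleph_one.le).le
  obtain ⟨i⟩ := (Cardinal.le_def _ _).1 hle
  have : Nonempty (Prm → ℕ → Option Raw) := ⟨fun _ _ => none⟩
  exact ⟨Function.invFun i, Function.invFun_surjective i.injective⟩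

/-- each sequence of countable sets of conditions has a code -/
noncomputable def dec : Co → Prm → ℕ → Option Raw := exists_dec.choose

theorem dec_surj : Function.Surjective dec := exists_dec.choose_spec

/-- valid conditions -/
def Val (p : Raw) : Prop := ∀ (x : Co) (f : Prm), (x, f) ∈ p.F →
  ∃ j b, dec x f j = some b ∧ Rle p b

/-- the forcing notion -/
def Pc : Type := {p : Raw // WF p ∧ Val p}

instance : Preorder Pc where
  le q p := Rle q.1 p.1
  le_refl p := Rle.refl p.1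
  le_trans r q p h1 h2 := Rle.trans h1 h2 q.2.1

theorem le_iff {q p : Pc} : q ≤ p ↔ Rle q.1 p.1 := Iff.rfl

/-- the empty condition -/
def emp : Pc := ⟨⟨0, ∅, ∅, ∅⟩, fun _ _ _ _ h => absurd h (Finset.notMem_empty _),
  fun _ _ h => absurd h (Finset.notMem_empty _)⟩

instance : Nonempty Pc := ⟨emp⟩

/-- a stronger condition without new promises is valid -/
theorem valid_of_le {q : Raw} {p : Pc} (h : Rle q p.1) (hF : q.F = p.1.F) : WF q ∧ Val q := by
  constructor
  · intro x c r g hx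
    rw [hF] at hx
    obtain ⟨h1, h2, h3, h4⟩ := p.2.1 x c r g hx
    exact ⟨h.D_sub h1, h.D_sub h2, h.D_sub h3, h4⟩
  · intro x f hx
    rw [hF] at hx
    obtain ⟨j, b, h1, h2⟩ := p.2.2 x f hx
    exact ⟨j, b, h1, h.trans h2 p.2.1⟩

open Classical in
theorem exists_addD (p : Pc) (E : Finset Kx) : ∃ q ≤ p, E ⊆ q.1.D ∧ q.1.n = p.1.n := by
  have h : Rle ⟨p.1.n, p.1.D ∪ E, p.1.s, p.1.F⟩ p.1 :=
    Rle.of_n rfl Finset.subset_union_left subset_rfl fun _ _ _ _ => Iff.rfl
  exact ⟨⟨_, valid_of_le h rfl⟩, h, Finset.subset_union_right, rfl⟩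

open Classical in
theorem exists_addF (p : Pc) (x : Co) (c : Bool) (r g : Om) (hx : Sum.inr x ∈ p.1.D)
    (hr : Sum.inl r ∈ p.1.D) (hg : Sum.inl g ∈ p.1.D) (hrg : r < g) (j : ℕ) (b : Raw)
    (hj : dec x (c, r, g) j = some b) (hb : Rle p.1 b) :
    ∃ q ≤ p, (x, (c, r, g)) ∈ q.1.F := by
  have h : Rle ⟨p.1.n, p.1.D, p.1.s, insert (x, (c, r, g)) p.1.F⟩ p.1 :=
    Rle.of_n rfl subset_rfl (Finset.subset_insert _ _) fun _ _ _ _ => Iff.rfl
  refine ⟨⟨_, ⟨?_, ?_⟩⟩, h, Finset.mem_insert_self _ _⟩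
  · intro x' c' r' g' hm
    rcases Finset.mem_insert.1 hm with h1 | h1
    · simp only [Prod.mk.injEq] at h1
      obtain ⟨rfl, rfl, rfl, rfl⟩ := h1
      exact ⟨hx, hr, hg, hrg⟩
    · exact p.2.1 x' c' r' g' h1
  · intro x' f' hm
    rcases Finset.mem_insert.1 hm with h1 | h1
    · obtain ⟨rfl, rfl⟩ := Prod.mk.inj h1
      exact ⟨j, b, hj, h.trans hb p.2.1⟩
    · obtain ⟨j', b', h2, h3⟩ := p.2.2 x' f' h1
      exact ⟨j', b', h2, h.trans h3 p.2.1⟩

/-- the new element is in the set with the given code -/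
def col (p : Raw) (cut : Om → Prop) (x : Co) : Prop :=
  ∃ r g, (x, (true, r, g)) ∈ p.F ∧ cut g ∧ ¬ cut r ∧
    ∀ r' g', (x, (false, r', g')) ∈ p.F → cut g' → ¬ cut r' → g ≤ g'

/-- the new element is in the set with the given coordinate -/
def nw (p : Raw) (cut : Om → Prop) : Kx → Prop
  | .inl a => cut a
  | .inr x => col p cut x

open Classical in
/-- add one more natural number -/
noncomputable def nx (p : Raw) (cut : Om → Prop) : Raw where
  n := p.n + 1
  D := p.D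
  s := p.s.filter (fun z => z.2 < p.n) ∪
    (p.D.filter (fun k => nw p cut k)).image (fun k => (k, p.n))
  F := p.F

theorem mem_nx {p : Raw} {cut : Om → Prop} {k : Kx} {m : ℕ} :
    (k, m) ∈ (nx p cut).s ↔ ((k, m) ∈ p.s ∧ m < p.n) ∨ (m = p.n ∧ k ∈ p.D ∧ nw p cut k) := by
  classical
  simp only [nx, Finset.mem_union, Finset.mem_filter, Finset.mem_image, Prod.mk.injEq]
  constructor
  · rintro (h | ⟨a, ⟨h1, h2⟩, h3, h4⟩)
    · exact Or.inl h
    · subst h3
      exact Or.inr ⟨h4.symm, h1, h2⟩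
  · rintro (h | ⟨h1, h2, h3⟩)
    · exact Or.inl h
    · exact Or.inr ⟨k, ⟨h2, h3⟩, rfl, h1.symm⟩

theorem nx_le {p : Raw} (hp : WF p) {cut : Om → Prop} (hcut : ∀ a b, a < b → cut a → cut b)
    (hbot : ∀ a, (∀ b, a ≤ b) → ¬ cut a) : Rle (nx p cut) p where
  n_le := Nat.le_succ _
  D_sub := subset_rfl
  F_sub := subset_rfl
  agree := by
    intro k hk m hm
    rw [mem_nx]
    constructor
    · rintro (h | h)
      · exact h.1
      · omega
    · exact fun h => Or.inl ⟨h, hm⟩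
  bot := by
    intro a ha hb m hm hm' h
    rw [mem_nx] at h
    rcases h with h | h
    · omega
    · exact hbot a hb h.2.2
  coh := by
    intro a b hab ha hb m hm hm' h
    rw [mem_nx] at h ⊢
    rcases h with h | h
    · omega
    · exact Or.inr ⟨h.1, hb, hcut a b hab h.2.2⟩
  prm := by
    intro x c r g hF m hm hm' h1 h2
    have hmn : m = p.n := by
      have : m < p.n + 1 := hm'
      omega
    subst hmn
    obtain ⟨e1, e2, e3, e4⟩ := hp x c r g hF
    have hg : cut g := by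
      rcases mem_nx.1 h1 with h | h
      · omega
      · exact h.2.2
    have hr : ¬ cut r := by
      intro h
      exact h2 (mem_nx.2 (Or.inr ⟨rfl, e2, h⟩))
    have hiff : ((Sum.inr x : Kx), p.n) ∈ (nx p cut).s ↔ col p cut x := by
      rw [mem_nx]
      constructor
      · rintro (h | h)
        · omega
        · exact h.2.2
      · exact fun h => Or.inr ⟨rfl, e1, h⟩
    have hlt : ∀ g', cut g' → r < g' := by
      intro g' hg'
      by_contra hcon
      rcases (not_lt.1 hcon).lt_or_eq with h | h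
      · exact hr (hcut _ _ h hg')
      · exact hr (h ▸ hg')
    rw [hiff]
    by_cases hc : col p cut x
    · cases c with
      | true => exact Or.inl ⟨fun _ => rfl, fun _ => hc⟩
      | false =>
        right
        obtain ⟨r1, g1, h3, h4, h5, h6⟩ := hc
        exact ⟨r1, g1, h3, hlt g1 h4, h6 r g hF hg hr⟩
    · cases c with
      | false => exact Or.inl ⟨fun h => absurd h hc, fun h => absurd h (by decide)⟩
      | true =>
        right
        by_contra hcon
        apply hc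
        refine ⟨r, g, hF, hg, hr, fun r' g' h3 h4 h5 => ?_⟩
        by_contra hlt'
        exact hcon ⟨r', g', h3, hlt g' h4, (not_le.1 hlt').le⟩

/-- add one more natural number, in the forcing notion -/
noncomputable def nxP (p : Pc) (cut : Om → Prop) (hcut : ∀ a b, a < b → cut a → cut b)
    (hbot : ∀ a, (∀ b, a ≤ b) → ¬ cut a) : Pc :=
  ⟨nx p.1 cut, valid_of_le (nx_le p.2.1 hcut hbot) rfl⟩

theorem exists_long (N : ℕ) : ∀ p : Pc, ∃ q ≤ p, N ≤ q.1.n := by
  induction N with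
  | zero => exact fun p => ⟨p, le_rfl, Nat.zero_le _⟩
  | succ N ih =>
    intro p
    obtain ⟨q, hq, hN⟩ := ih p
    refine ⟨nxP q (fun _ => False) (fun _ _ _ h => h) (fun _ _ h => h), ?_, ?_⟩
    · exact (le_iff.2 (nx_le q.2.1 (fun _ _ _ h => h) (fun _ _ h => h))).trans hq
    · exact Nat.succ_le_succ hN

/-! ### The countable chain condition -/

open Classical in
/-- the union of two conditions -/
noncomputable def uni (p q : Raw) : Raw where
  n := p.n
  D := p.D ∪ q.D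
  s := (p.s.filter fun z => z.1 ∈ p.D ∧ z.2 < p.n) ∪ (q.s.filter fun z => z.1 ∈ q.D ∧ z.2 < p.n)
  F := p.F ∪ q.F

theorem uni_le_left {p q : Raw}
    (h : ∀ k, k ∈ p.D → k ∈ q.D → ∀ m, m < p.n → ((k, m) ∈ p.s ↔ (k, m) ∈ q.s)) :
    Rle (uni p q) p := by
  classical
  refine Rle.of_n rfl Finset.subset_union_left Finset.subset_union_left fun k hk m hm => ?_
  simp only [uni, Finset.mem_union, Finset.mem_filter]
  constructor
  · rintro (⟨h1, _⟩ | ⟨h1, h2, _⟩)
    · exact h1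
    · exact (h k hk h2 m hm).2 h1
  · exact fun h1 => Or.inl ⟨h1, hk, hm⟩

theorem uni_le_right {p q : Raw} (hn : p.n = q.n)
    (h : ∀ k, k ∈ p.D → k ∈ q.D → ∀ m, m < p.n → ((k, m) ∈ p.s ↔ (k, m) ∈ q.s)) :
    Rle (uni p q) q := by
  classical
  refine Rle.of_n hn Finset.subset_union_right Finset.subset_union_right fun k hk m hm => ?_
  simp only [uni, Finset.mem_union, Finset.mem_filter]
  constructor
  · rintro (⟨h1, h2, _⟩ | ⟨h1, _⟩)
    · exact (h k h2 hk m (hn ▸ hm)).1 h1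
    · exact h1
  · exact fun h1 => Or.inr ⟨h1, hk, hn ▸ hm⟩

theorem uni_valid {p q : Pc} (h1 : Rle (uni p.1 q.1) p.1) (h2 : Rle (uni p.1 q.1) q.1) :
    WF (uni p.1 q.1) ∧ Val (uni p.1 q.1) := by
  classical
  constructor
  · intro x c r g hx
    rcases Finset.mem_union.1 (show (x, (c, r, g)) ∈ p.1.F ∪ q.1.F from hx) with h | h
    · obtain ⟨e1, e2, e3, e4⟩ := p.2.1 x c r g h
      exact ⟨h1.D_sub e1, h1.D_sub e2, h1.D_sub e3, e4⟩
    · obtain ⟨e1, e2, e3, e4⟩ := q.2.1 x c r g h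
      exact ⟨h2.D_sub e1, h2.D_sub e2, h2.D_sub e3, e4⟩
  · intro x f hx
    rcases Finset.mem_union.1 (show (x, f) ∈ p.1.F ∪ q.1.F from hx) with h | h
    · obtain ⟨j, b, e1, e2⟩ := p.2.2 x f h
      exact ⟨j, b, e1, h1.trans e2 p.2.1⟩
    · obtain ⟨j, b, e1, e2⟩ := q.2.2 x f h
      exact ⟨j, b, e1, h2.trans e2 q.2.1⟩

theorem ccc : Pool.Agent.Helper161.Gam.CCC Pc := by
  classical
  intro A hA
  by_contra hcon
  have hY : ¬ Countable A := fun h => hcon (Set.countable_coe_iff.1 h)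
  obtain ⟨y, y', hne, hagree⟩ := Pool.Agent.Helper161.Gam.exists_agree (I := Option Kx) (Y := A)
    (fun b => {i | i = none ∨ ∃ k ∈ (b : Pc).1.D, i = some k}) (fun b => by
      have : {i : Option Kx | i = none ∨ ∃ k ∈ (b : Pc).1.D, i = some k} =
          insert none (some '' ((b : Pc).1.D : Set Kx)) := by
        ext i
        simp only [Set.mem_ofPred_eq, Set.mem_insert_iff, Set.mem_image, Finset.mem_coe]
        constructor
        · rintro (h | ⟨k, h1, h2⟩)
          · exact Or.inl h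
          · exact Or.inr ⟨k, h1, h2.symm⟩
        · rintro (h | ⟨k, h1, h2⟩)
          · exact Or.inl h
          · exact Or.inr ⟨k, h1, h2.symm⟩
      rw [this]
      exact ((Finset.finite_toSet _).image _).insert _)
    (fun b i => match i with
      | none => (b : Pc).1.n
      | some k => Encodable.encode
        ((Finset.range (b : Pc).1.n).filter fun m => (k, m) ∈ (b : Pc).1.s)) hY
  have hn : (y : Pc).1.n = (y' : Pc).1.n := hagree none (Or.inl rfl) (Or.inl rfl)
  have hs : ∀ k, k ∈ (y : Pc).1.D → k ∈ (y' : Pc).1.D → ∀ m, m < (y : Pc).1.n →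
      ((k, m) ∈ (y : Pc).1.s ↔ (k, m) ∈ (y' : Pc).1.s) := by
    intro k h1 h2 m hm
    have h3 := Encodable.encode_injective
      (hagree (some k) (Or.inr ⟨k, h1, rfl⟩) (Or.inr ⟨k, h2, rfl⟩))
    have h4 := Finset.ext_iff.1 h3 m
    simp only [Finset.mem_filter, Finset.mem_range] at h4
    constructor
    · exact fun h => (h4.1 ⟨hm, h⟩).2
    · exact fun h => (h4.2 ⟨hn ▸ hm, h⟩).2
  have e1 := uni_le_left hs
  have e2 := uni_le_right hn hs
  exact hne (Subtype.ext (hA y y.2 y' y'.2 ⟨⟨_, uni_valid e1 e2⟩, e1, e2⟩))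

end Pool.Agent.Helper835.TS
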