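import Mathlib
import Pool.Agent.Helper835.TS.Poset
import Pool.Agent.Helper835.TS.Def

/-!
# The forcing notion forces the tower
-/

set_option autoImplicit false

open Set Cardinal
open Pool.Agent.Helper292.ForceCH

namespace Pool.Agent.Helper835.TS

universe v

section

variable {P : Type} [Preorder P]

theorem fex_intro {ι : Sort v} {φ : ι → Set P} {p : P} (i : ι) (hd : Down (φ i))
    (h : p ∈ φ i) : p ∈ fex φ :=
  mem_fex.2 fun q hq => ⟨q, le_rfl, i, hd _ h _ hq⟩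

theorem down_fground (h : Prop) : Down (fground (P := P) h) := fun _ hp _ _ => hp

theorem meets_of_mem {N : Set P} {p : P} (h : p ∈ N) : p ∈ meets N :=
  fun q hq => ⟨q, le_rfl, p, h, hq⟩

theorem exists_of_meets {N : Set P} (hN : Down N) {p : P} (h : p ∈ meets N) :
    ∃ q ≤ p, q ∈ N := by
  obtain ⟨r, hr, s, hs, hle⟩ := h p le_rfl
  exact ⟨r, hr, hN s hs r hle⟩

theorem meets_of_fimp {g : Prop} {N : Set P} {p : P} (hg : g)
    (h : p ∈ fimp (fground g) (meets N)) : p ∈ meets N :=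
  meets_of_dense fun q hq => (mem_fimp.1 h q hq hg)

theorem exists_enum {X : Type} {B : Set X} (hB : B.Countable) :
    ∃ f : ℕ → Option X, ∀ b, b ∈ B ↔ ∃ j, f j = some b := by
  classical
  rcases B.eq_empty_or_nonempty with rfl | hne
  · exact ⟨fun _ => none, fun b => by simp⟩
  · obtain ⟨f, hf⟩ := hB.exists_eq_range hne
    refine ⟨fun j => some (f j), fun b => ?_⟩
    rw [hf]
    simp

/-- each name has a countable version, in a ccc forcing notion -/
theorem exists_code (hP : Pool.Agent.Helper161.Gam.CCC P) (N : Set P) :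
    ∃ f : ℕ → Option P, meets {r | ∃ j b, f j = some b ∧ r ≤ b} = meets N := by
  obtain ⟨N', h1, h2, h3⟩ :=
    Pool.Agent.Helper161.Gam.ctbl_mts (Pool.Agent.Helper161.Gam.nice_of_ccc hP) N
  obtain ⟨f, hf⟩ := exists_enum h1
  refine ⟨f, ?_⟩
  have h4 : meets N = meets N' := h3.symm
  rw [h4]
  ext r
  constructor
  · intro hr t ht
    obtain ⟨t', ht', s, ⟨j, b, hb, hsb⟩, hs⟩ := hr t ht
    exact ⟨t', ht', b, (hf b).2 ⟨j, hb⟩, hs.trans hsb⟩
  · intro hr t ht
    obtain ⟨t', ht', b, hb, htb⟩ := hr t ht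
    obtain ⟨j, hj⟩ := (hf b).1 hb
    exact ⟨t', ht', b, ⟨j, b, hj, le_rfl⟩, htb⟩

/-- `ω₁` is preserved by a ccc forcing notion -/
theorem omegaOne_of_ccc (hP : Pool.Agent.Helper161.Gam.CCC P) (p : P) :
    p ∈ OmegaOnePreserved P := by
  intro q _ hq
  obtain ⟨r, _, R, hR, hR'⟩ := mem_fex.1 hq q le_rfl
  have hcount : ∀ n, {a : Om | ∃ t ≤ r, t ∈ meets (R n a)}.Countable := by
    intro n
    choose ρ hρ1 hρ2 using fun a : {a : Om | ∃ t ≤ r, t ∈ meets (R n a)} => a.2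
    have hcompat : ∀ a a', (∃ t, t ≤ ρ a ∧ t ≤ ρ a') → a = a' := by
      rintro a a' ⟨t, ht, ht'⟩
      have h2 := hR.2 n (a : Om) (a' : Om)
      obtain ⟨t'', _, h3⟩ := mem_fimp.1 h2 t (ht.trans (hρ1 a))
        ⟨down_meets _ _ (hρ2 a) _ ht, down_meets _ _ (hρ2 a') _ ht'⟩
      exact Subtype.ext h3
    have hA : (Set.range ρ).Countable := by
      apply hP
      rintro _ ⟨a, rfl⟩ _ ⟨a', rfl⟩ h
      rw [hcompat a a' h]
    have hinj : Function.Injective ρ := fun a a' h => hcompat a a' ⟨ρ a, le_rfl, h.le⟩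
    have hc1 : Countable (Set.range ρ) := hA.to_subtype
    exact Set.countable_coe_iff.1 (Function.Injective.countable
      (f := fun a => (⟨ρ a, a, rfl⟩ : Set.range ρ)) (fun a a' h => hinj (congrArg Subtype.val h)))
  have hall : (Set.univ : Set Om) ⊆ ⋃ n, {a : Om | ∃ t ≤ r, t ∈ meets (R n a)} := by
    intro a _
    obtain ⟨t, ht, n, hn⟩ := mem_fex.1 (hR' a) r le_rfl
    exact Set.mem_iUnion.2 ⟨n, t, ht, hn⟩
  have h3 := (Set.countable_iUnion hcount).mono hall
  rw [Set.countable_univ_iff, ← mk_le_aleph0_iff, mk_Om] at h3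
  exact absurd h3 (not_le.2 aleph0_lt_aleph_one)

end

/-- the conditions which decide that `m` is in the set with the given coordinate -/
def nm (k : Kx) (m : ℕ) : Set Pc := {p | k ∈ p.1.D ∧ m < p.1.n ∧ (k, m) ∈ p.1.s}

theorem down_nm (k : Kx) (m : ℕ) : Down (nm k m) := by
  rintro p ⟨h1, h2, h3⟩ q hq
  exact ⟨hq.D_sub h1, h2.trans_le hq.n_le, (hq.agree k h1 m h2).2 h3⟩

theorem fnot_nm {k : Kx} {m : ℕ} {p : Pc} (h1 : k ∈ p.1.D) (h2 : m < p.1.n)
    (h3 : (k, m) ∉ p.1.s) : p ∈ fnot (meets (nm k m)) := by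
  intro q hq h
  obtain ⟨r, hr, hr'⟩ := exists_of_meets (down_nm k m) h
  have hrp : Rle r.1 p.1 := le_iff.1 (hr.trans hq)
  exact h3 ((hrp.agree k h1 m h2).1 hr'.2.2)

/-- the underlying data of a condition -/
def toRaw (p : Pc) : Raw := p.1

theorem enum_map {o : Option Pc} {b : Raw}
    (h : o.map toRaw = some b) : ∃ b' : Pc, o = some b' ∧ b'.1 = b := by
  cases o with
  | none => exact absurd h (by simp)
  | some b' => exact ⟨b', rfl, Option.some.inj h⟩

theorem forced_follows (U : Bool → Om → Set Pc) (p : Pc)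
    (hdis : ∀ (c : Bool) (x : Om), ∀ q ≤ p, q ∈ meets (U c x) → q ∈ meets (U (!c) x) → False)
    (hopen : ∀ c, p ∈ IsOpenName (U c)) : ∃ x : Co, ∀ (c : Bool) (g : Om), (∃ b, b < g) →
      ∀ q ≤ p, q ∈ meets (U c g) →
      q ∈ Follows (fun a m => nm (Sum.inl a) m) g
        (fun m => cond c (meets (nm (Sum.inr x) m)) (fnot (meets (nm (Sum.inr x) m)))) := by
  classical
  let S : Prm → Set Pc := fun f => {t | ∀ y, f.2.1 < y → y ≤ f.2.2 → t ∈ meets (U f.1 y)}
  choose B hB using fun f : Prm => exists_code ccc (S f)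
  obtain ⟨x, hx⟩ := dec_surj (fun f j => (B f j).map toRaw)
  have hSm : ∀ (t : Pc) (f : Prm) j b, dec x f j = some b → Rle t.1 b → t ∈ meets (S f) := by
    intro t f j b h1 h2
    rw [hx] at h1
    obtain ⟨b', h3, rfl⟩ := enum_map h1
    rw [← hB f]
    exact meets_of_mem ⟨j, b', h3, h2⟩
  have hSd : ∀ (f : Prm), Down (S f) := fun f t ht t' ht' y h1 h2 =>
    down_meets _ _ (ht y h1 h2) _ ht'
  refine ⟨x, fun c g hg q hq hqU => ?_⟩
  refine mem_fex.2 fun q1 hq1 => ?_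
  obtain ⟨q2, hq2, h2⟩ := mem_fimp.1 (hopen c g) q1 (hq1.trans hq)
    ⟨down_meets _ _ hqU _ hq1, hg⟩
  obtain ⟨q3, hq3, r, hr, h3⟩ := mem_fex.1 h2 q2 le_rfl
  have hrg : r < g := hr
  have hq3S : q3 ∈ S (c, r, g) := fun y hy1 hy2 => meets_of_fimp ⟨hy1, hy2⟩ (h3 y)
  have hq3m : q3 ∈ meets {t | ∃ j b, B (c, r, g) j = some b ∧ t ≤ b} := by
    rw [hB]
    exact meets_of_mem hq3S
  obtain ⟨q4, hq4, s, ⟨j, b, hj, hsb⟩, hs⟩ := hq3m q3 le_rfl
  obtain ⟨q5, hq5, hD, _⟩ := exists_addD q4 {Sum.inr x, Sum.inl r, Sum.inl g}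
  have hq5b : Rle q5.1 b.1 := le_iff.1 (hq5.trans (hs.trans hsb))
  obtain ⟨q6, hq6, hF⟩ := exists_addF q5 x c r g (hD (by simp)) (hD (by simp)) (hD (by simp)) hrg
    j b.1 (by rw [hx]; show (B (c, r, g) j).map toRaw = some b.1; rw [hj]; rfl) hq5b
  have hxD : Sum.inr x ∈ q6.1.D := hq6.D_sub (hD (by simp))
  have hrD : Sum.inl r ∈ q6.1.D := hq6.D_sub (hD (by simp))
  have hgD : Sum.inl g ∈ q6.1.D := hq6.D_sub (hD (by simp))
  have h63 : q6 ≤ q3 := (hq6.trans hq5).trans hq4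
  refine ⟨q6, ((h63.trans hq3).trans hq2), r, hrg, ?_⟩
  refine fex_intro q6.1.n (down_fall fun _ => down_fimp _ _) fun m => ?_
  refine mem_fimp.2 fun t ht h => ?_
  obtain ⟨hm, hmg, hmr⟩ := h
  have hm' : q6.1.n ≤ m := hm
  obtain ⟨t1, ht1, ht1'⟩ := exists_of_meets (down_nm _ _) hmg
  have h16 : t1 ≤ q6 := ht1.trans ht
  have hmr' : (((Sum.inl r : Kx), m)) ∉ t1.1.s := by
    intro hcon
    exact hmr t1 ht1 (meets_of_mem ⟨h16.D_sub hrD, ht1'.2.1, hcon⟩)
  rcases h16.prm x c r g hF m hm' ht1'.2.1 ht1'.2.2 hmr' with h | ⟨r', g', h4, h5, h6⟩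
  · refine ⟨t1, ht1, ?_⟩
    cases c with
    | true =>
      show t1 ∈ meets (nm (Sum.inr x) m)
      exact meets_of_mem ⟨h16.D_sub hxD, ht1'.2.1, h.2 rfl⟩
    | false =>
      show t1 ∈ fnot (meets (nm (Sum.inr x) m))
      exact fnot_nm (h16.D_sub hxD) ht1'.2.1 fun hcon => absurd (h.1 hcon) (by decide)
  · exfalso
    obtain ⟨j', b', h7, h8⟩ := t1.2.2 x (!c, r', g') h4
    have h9 := hSm t1 (!c, r', g') j' b' h7 h8
    obtain ⟨t2, ht2, ht2'⟩ := exists_of_meets (hSd _) h9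
    have h10 : t2 ∈ meets (U (!c) g') := ht2' g' (t1.2.1 x _ r' g' h4).2.2.2 le_rfl
    have h23 : t2 ≤ q3 := (ht2.trans h16).trans h63
    have h11 : t2 ∈ meets (U c g') := down_meets _ _ (hq3S g' h5 h6) _ h23
    exact hdis c g' t2 ((((h23.trans hq3).trans hq2).trans hq1).trans hq) h11 h10

theorem tower_forced (p : Pc) : p ∈ TowerHolds Pc := by
  classical
  refine fex_intro (fun (a : Om) (m : ℕ) => nm (Sum.inl a) m) ?_ ⟨?_, ?_, ?_⟩
  · exact down_fand (down_fall fun _ => down_fall fun _ => down_fimp _ _)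
      (down_fand (down_fall fun _ => down_fimp _ _)
        (down_fall fun _ => down_fall fun _ => down_fimp _ _))
  · intro a b
    refine fimp_of fun q _ hab => ?_
    have hab' : a < b := hab
    refine ⟨mem_fex.2 fun q1 hq1 => ?_, fun k => mem_fex.2 fun q1 hq1 => ?_⟩
    · obtain ⟨q2, hq2, hD, _⟩ := exists_addD q1 {Sum.inl a, Sum.inl b}
      refine ⟨q2, hq2, q2.1.n, fun m => mem_fimp.2 fun t ht h => ?_⟩
      obtain ⟨h1, h2⟩ := h
      obtain ⟨t1, ht1, ht1'⟩ := exists_of_meets (down_nm _ _) h2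
      have h12 : t1 ≤ q2 := ht1.trans ht
      refine ⟨t1, ht1, meets_of_mem ⟨h12.D_sub (hD (by simp)), ht1'.2.1, ?_⟩⟩
      exact h12.coh a b hab' (hD (by simp)) (hD (by simp)) m h1 ht1'.2.1 ht1'.2.2
    · obtain ⟨q2, hq2, hk⟩ := exists_long k q1
      obtain ⟨q3, hq3, hD, hn⟩ := exists_addD q2 {Sum.inl a, Sum.inl b}
      have hcut : ∀ x y : Om, x < y → b ≤ x → b ≤ y := fun x y h h' => h'.trans h.le
      have hbot : ∀ x : Om, (∀ y, x ≤ y) → ¬ b ≤ x := by
        intro x hx hbx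
        exact absurd (hbx.trans (hx a)) (not_le.2 hab')
      have hle : nxP q3 (fun x => b ≤ x) hcut hbot ≤ q3 := nx_le q3.2.1 hcut hbot
      refine ⟨nxP q3 (fun x => b ≤ x) hcut hbot, hle.trans (hq3.trans hq2), q3.1.n, ?_⟩
      refine ⟨show k ≤ q3.1.n by omega, meets_of_mem ⟨hD (by simp), Nat.lt_succ_self _, ?_⟩, ?_⟩
      · exact mem_nx.2 (Or.inr ⟨rfl, hD (by simp), show b ≤ b from le_rfl⟩)
      · refine fnot_nm (hD (by simp)) (Nat.lt_succ_self _) fun hcon => ?_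
        rcases mem_nx.1 hcon with h | h
        · exact absurd h.2 (lt_irrefl _)
        · have h1 : b ≤ a := h.2.2
          exact absurd h1 (not_le.2 hab')
  · intro a
    refine fimp_of fun q _ ha => ?_
    have ha' : ∀ b, a ≤ b := ha
    refine mem_fex.2 fun q1 hq1 => ?_
    obtain ⟨q2, hq2, hD, _⟩ := exists_addD q1 {Sum.inl a}
    refine ⟨q2, hq2, q2.1.n, fun m => fimp_of fun t ht h => ?_⟩
    intro t' ht' h'
    obtain ⟨t1, ht1, ht1'⟩ := exists_of_meets (down_nm _ _) h'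
    exact (ht1.trans (ht'.trans ht)).bot a (hD (by simp)) ha' m h ht1'.2.1 ht1'.2.2
  · intro U V
    refine fimp_of fun q _ h => ?_
    obtain ⟨hU, hV, hUV⟩ := h
    obtain ⟨x, hx⟩ := forced_follows (fun c => cond c U V) q
      (by
        intro c y t ht h1 h2
        cases c with
        | true =>
          have h1' : t ∈ meets (U y) := by simpa using h1
          have h2' : t ∈ meets (V y) := by simpa using h2
          exact hUV y t ht ⟨h1', h2'⟩
        | false =>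
          have h1' : t ∈ meets (V y) := by simpa using h1
          have h2' : t ∈ meets (U y) := by simpa using h2
          exact hUV y t ht ⟨h2', h1'⟩)
      (by
        intro c
        cases c with
        | true => simpa using hU
        | false => simpa using hV)
    refine fex_intro (fun m => nm (Sum.inr x) m) (down_fall fun _ => down_fimp _ _) fun g => ?_
    refine fimp_of fun q1 hq1 hg => ⟨fimp_of fun q2 hq2 h2 => ?_, fimp_of fun q2 hq2 h2 => ?_⟩
    · have := hx true g hg q2 (hq2.trans hq1) (by simpa using h2)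
      simpa using this
    · have := hx false g hg q2 (hq2.trans hq1) (by simpa using h2)
      simpa using this

end Pool.Agent.Helper835.TS
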