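import Mathlib
import Pool.Agent.Helper292.ForceCH

/-!
# The tower and the space
-/

set_option autoImplicit false

open Set
open Pool.Agent.Helper292.ForceCH (Om)

namespace Pool.Agent.Helper835.TS

/-- `U` is open in the order topology of `ω₁` -/
def OpenSet (U : Set Om) : Prop :=
  ∀ c ∈ U, (∃ b, b < c) → ∃ b, b < c ∧ ∀ x, b < x → x ≤ c → x ∈ U

/-- The sets `T a ⊆ ℕ`, for `a` in `ω₁`, are a tower with the filling property: `T a ⊆* T b` and
`T b ∖ T a` is infinite for `a < b`, the first of the sets is finite, and for disjoint open sets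
`U`, `V` there is a set `A ⊆ ℕ` such that each `c ∈ U` (`c ∈ V`), not the least element, has some
`b < c` such that almost all elements of `T c ∖ T b` are in `A` (are not in `A`). -/
structure IsTower (T : Om → Set ℕ) : Prop where
  sub : ∀ a b, a < b → ∃ k : ℕ, ∀ m, k ≤ m → m ∈ T a → m ∈ T b
  inf : ∀ a b, a < b → ∀ k : ℕ, ∃ m, k ≤ m ∧ m ∈ T b ∧ m ∉ T a
  bot : ∀ a, (∀ b, a ≤ b) → ∃ k : ℕ, ∀ m, k ≤ m → m ∉ T a
  sep : ∀ U V : Set Om, OpenSet U → OpenSet V → (∀ x, ¬ (x ∈ U ∧ x ∈ V)) →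
    ∃ A : Set ℕ, ∀ c, (∃ b, b < c) →
      (c ∈ U → ∃ b, b < c ∧ ∃ k : ℕ, ∀ m, k ≤ m → m ∈ T c → m ∉ T b → m ∈ A) ∧
      (c ∈ V → ∃ b, b < c ∧ ∃ k : ℕ, ∀ m, k ≤ m → m ∈ T c → m ∉ T b → m ∉ A)

/-- the product space -/
abbrev Big : Type := (Om → Bool) × (ℕ → Bool)

open Classical in
/-- the isolated point with number `n` -/
noncomputable def pt (T : Om → Set ℕ) (n : ℕ) : Big :=
  (fun a => decide (n ∈ T a), fun i => decide (i = n))

open Classical in
/-- the point corresponding to `c` in `ω₁` -/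
noncomputable def pc (c : Om) : Big := (fun a => decide (c ≤ a), fun _ => false)

/-- the point at infinity -/
def pinf : Big := (fun _ => false, fun _ => false)

/-- the space -/
def Z (T : Om → Set ℕ) : Set Big :=
  {x | (∃ n, x = pt T n) ∨ (∃ c, (∃ b, b < c) ∧ x = pc c) ∨ x = pinf}

end Pool.Agent.Helper835.TS
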