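import Mathlib
import Pool.Agent.Helper835.KS.Triv
import Pool.Agent.Helper835.TS.Def
import Pool.Agent.Helper835.TS.Zdef

/-!
# For the one-point forcing the sentence is the plain statement
-/

set_option autoImplicit false

open Set
open Pool.Agent.Helper292.ForceCH
open Pool.Agent.Helper835.KS

namespace Pool.Agent.Helper835.TS

theorem u_open {U : Om → Set Unit} : () ∈ IsOpenName U ↔ OpenSet {c | () ∈ U c} := by
  simp only [IsOpenName, OpenSet, u_fand, u_fex, u_fall, u_fimp, u_fground, u_meets,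
    mem_ofPred_eq, and_imp]

theorem u_follows {T : Om → ℕ → Set Unit} {c : Om} {B : ℕ → Set Unit} :
    () ∈ Follows T c B ↔ ∃ b, b < c ∧ ∃ k : ℕ, ∀ m, k ≤ m → () ∈ T c m → () ∉ T b m → () ∈ B m := by
  simp only [Follows, u_fand, u_fex, u_fall, u_fimp, u_fground, u_meets, u_fnot, and_imp]

theorem u_tower : () ∈ TowerHolds Unit ↔ ∃ T : Om → Set ℕ, IsTower T := by
  simp only [TowerHolds, u_fand, u_fex, u_fall, u_fimp, u_fground, u_meets, u_fnot, u_open,
    u_follows, and_imp]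
  constructor
  · rintro ⟨T, h1, h2, h3⟩
    refine ⟨fun a => {m | () ∈ T a m}, ?_, ?_, ?_, ?_⟩
    · exact fun a b hab => (h1 a b hab).1
    · exact fun a b hab => (h1 a b hab).2
    · exact h2
    · intro U V hU hV hUV
      obtain ⟨A, hA⟩ := h3 (fun c => {_p | c ∈ U}) (fun c => {_p | c ∈ V}) hU hV hUV
      exact ⟨{m | () ∈ A m}, fun c hc => hA c hc⟩
  · rintro ⟨T, hT⟩
    refine ⟨fun a m => {_p | m ∈ T a}, fun a b hab => ⟨hT.sub a b hab, hT.inf a b hab⟩, hT.bot,
      fun U V hU hV hUV => ?_⟩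
    obtain ⟨A, hA⟩ := hT.sep {c | () ∈ U c} {c | () ∈ V c} hU hV hUV
    exact ⟨fun m => {_p | m ∈ A}, fun c hc => hA c hc⟩

end Pool.Agent.Helper835.TS
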