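import Mathlib
import Pool.Agent.Helper835.TS.Zdef

/-!
# The space is compact, separable, completely normal and not countably tight
-/

set_option autoImplicit false

open Set Cardinal Ordinal
open Pool.Agent.Helper292.ForceCH (Om countable_Iio exists_bound)

namespace Pool.Agent.Helper835.TS

theorem TSj1_o1 (a : Om) (b : Bool) : IsOpen {y : Big | y.1 a = b} := by
  have h : Continuous fun y : Big => y.1 a := (continuous_apply a).comp continuous_fst
  exact (isOpen_discrete ({b} : Set Bool)).preimage h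

theorem TSj1_o2 (i : ℕ) (b : Bool) : IsOpen {y : Big | y.2 i = b} := by
  have h : Continuous fun y : Big => y.2 i := (continuous_apply i).comp continuous_snd
  exact (isOpen_discrete ({b} : Set Bool)).preimage h

theorem TSj1_o3 (k : ℕ) : IsOpen {y : Big | ∀ i < k, y.2 i = false} := by
  have h : {y : Big | ∀ i < k, y.2 i = false} = ⋂ i ∈ Finset.range k, {y : Big | y.2 i = false} := by
    ext y
    simp
  rw [h]
  exact isOpen_biInter_finset fun i _ => TSj1_o2 i false

theorem isClosed_Z {T : Om → Set ℕ} (hT : IsTower T) : IsClosed (Z T) := by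
  classical
  refine isClosed_of_closure_subset fun x hx => ?_
  rw [mem_closure_iff] at hx
  by_cases h2 : ∃ i, x.2 i = true
  · obtain ⟨i, hi⟩ := h2
    refine Or.inl ⟨i, ?_⟩
    by_contra hne
    obtain ⟨y, ⟨hy1, hy2⟩, hyZ⟩ := hx ({y | y.2 i = true} ∩ {pt T i}ᶜ)
      ((TSj1_o2 i true).inter isClosed_singleton.isOpen_compl) ⟨hi, hne⟩
    rcases hyZ with ⟨n, rfl⟩ | ⟨c, _, rfl⟩ | rfl
    · have h3 : i = n := by
        have : decide (i = n) = true := hy1
        simpa using this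
      subst h3
      exact hy2 rfl
    · have : false = true := hy1
      exact Bool.noConfusion this
    · have : false = true := hy1
      exact Bool.noConfusion this
  have h0 : ∀ i, x.2 i = false := by
    intro i
    cases h3 : x.2 i
    · rfl
    · exact absurd ⟨i, h3⟩ h2
  have hmono : ∀ a b, a < b → x.1 a = true → x.1 b = true := by
    intro a b hab ha
    cases hb : x.1 b with
    | true => rfl
    | false =>
      exfalso
      obtain ⟨k, hk⟩ := hT.sub a b hab
      obtain ⟨y, ⟨⟨hy1, hy2⟩, hy3⟩, hyZ⟩ :=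
        hx (({y | y.1 a = true} ∩ {y | y.1 b = false}) ∩ {y | ∀ i < k, y.2 i = false})
          (((TSj1_o1 a true).inter (TSj1_o1 b false)).inter (TSj1_o3 k)) ⟨⟨ha, hb⟩, fun i _ => h0 i⟩
      rcases hyZ with ⟨n, rfl⟩ | ⟨c, _, rfl⟩ | rfl
      · have e1 : decide (n ∈ T a) = true := hy1
        have e2 : decide (n ∈ T b) = false := hy2
        have e3 : k ≤ n := by
          by_contra hlt
          have : decide (n = n) = false := hy3 n (not_le.1 hlt)
          simp at this
        exact (of_decide_eq_false e2) (hk n e3 (of_decide_eq_true e1))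
      · have e1 : decide (c ≤ a) = true := hy1
        have e2 : decide (c ≤ b) = false := hy2
        exact (of_decide_eq_false e2) ((of_decide_eq_true e1).trans hab.le)
      · have : false = true := hy1
        exact Bool.noConfusion this
  have hleast : ∀ a, (∀ b, a ≤ b) → x.1 a = false := by
    intro a hl
    cases ha : x.1 a with
    | false => rfl
    | true =>
      exfalso
      obtain ⟨k, hk⟩ := hT.bot a hl
      obtain ⟨y, ⟨hy1, hy3⟩, hyZ⟩ :=
        hx ({y | y.1 a = true} ∩ {y | ∀ i < k, y.2 i = false})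
          ((TSj1_o1 a true).inter (TSj1_o3 k)) ⟨ha, fun i _ => h0 i⟩
      rcases hyZ with ⟨n, rfl⟩ | ⟨c, ⟨b, hbc⟩, rfl⟩ | rfl
      · have e1 : decide (n ∈ T a) = true := hy1
        have e3 : k ≤ n := by
          by_contra hlt
          have : decide (n = n) = false := hy3 n (not_le.1 hlt)
          simp at this
        exact hk n e3 (of_decide_eq_true e1)
      · have e1 : decide (c ≤ a) = true := hy1
        exact absurd ((hbc.trans_le (of_decide_eq_true e1)).trans_le (hl b)) (lt_irrefl _)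
      · have : false = true := hy1
        exact Bool.noConfusion this
  by_cases hex : ∃ a, x.1 a = true
  · have hne : {a : Om | x.1 a = true}.Nonempty := hex
    let c : Om := (wellFounded_lt (α := Om)).min {a : Om | x.1 a = true} hne
    have hc : x.1 c = true := (wellFounded_lt (α := Om)).min_mem _ hne
    have hmin : ∀ a, a < c → x.1 a = false := by
      intro a ha
      cases h3 : x.1 a with
      | false => rfl
      | true =>
        exact absurd ha ((wellFounded_lt (α := Om)).not_lt_min {a : Om | x.1 a = true} h3)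
    refine Or.inr (Or.inl ⟨c, ?_, ?_⟩)
    · by_contra hno
      push Not at hno
      have := hleast c hno
      rw [hc] at this
      exact Bool.noConfusion this
    · refine Prod.ext (funext fun a => ?_) (funext fun i => h0 i)
      show x.1 a = decide (c ≤ a)
      rcases lt_trichotomy c a with h | h | h
      · rw [decide_eq_true h.le]
        exact hmono c a h hc
      · rw [decide_eq_true h.le, ← h]
        exact hc
      · rw [decide_eq_false (not_le.2 h)]
        exact hmin a h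
  · refine Or.inr (Or.inr ?_)
    refine Prod.ext (funext fun a => ?_) (funext fun i => h0 i)
    show x.1 a = false
    cases h3 : x.1 a
    · rfl
    · exact absurd ⟨a, h3⟩ hex

theorem clos_of (S : Set Big) (y : Big)
    (h : ∀ (F : Finset Om) (K : ℕ), ∃ s ∈ S, (∀ a ∈ F, s.1 a = y.1 a) ∧ (∀ i < K, s.2 i = y.2 i)) :
    y ∈ closure S := by
  rw [mem_closure_iff]
  intro o ho hy
  obtain ⟨u, v, hu, hv, hyu, hyv, huv⟩ := isOpen_prod_iff.1 ho y.1 y.2 hy
  obtain ⟨I, U, hU, hI⟩ := isOpen_pi_iff.1 hu y.1 hyu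
  obtain ⟨J, V, hV, hJ⟩ := isOpen_pi_iff.1 hv y.2 hyv
  obtain ⟨s, hs, h1, h2⟩ := h I (J.sup id + 1)
  refine ⟨s, huv ⟨hI ?_, hJ ?_⟩, hs⟩
  · intro a ha
    rw [h1 a ha]
    exact (hU a ha).2
  · intro i hi
    have : i ≤ J.sup id := Finset.le_sup (f := id) hi
    rw [h2 i (by omega)]
    exact (hV i hi).2

theorem exists_max (F : Finset Om) (b0 : Om) : ∃ r, (r = b0 ∨ r ∈ F) ∧ b0 ≤ r ∧ ∀ a ∈ F, a ≤ r := by
  classical
  have hne : (insert b0 F).Nonempty := Finset.insert_nonempty _ _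
  refine ⟨(insert b0 F).max' hne, ?_, ?_, ?_⟩
  · have := Finset.max'_mem _ hne
    rwa [Finset.mem_insert] at this
  · exact Finset.le_max' _ _ (Finset.mem_insert_self _ _)
  · intro a ha
    exact Finset.le_max' _ _ (Finset.mem_insert_of_mem ha)

theorem separable_Z {T : Om → Set ℕ} (hT : IsTower T) :
    TopologicalSpace.SeparableSpace (Z T) := by
  classical
  have hsub := hT.sub
  choose! κ hκ using hsub
  refine ⟨⟨Set.range (fun n => (⟨pt T n, Or.inl ⟨n, rfl⟩⟩ : Z T)), Set.countable_range _, ?_⟩⟩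
  intro x
  rw [closure_subtype]
  have himg : (Subtype.val '' Set.range (fun n => (⟨pt T n, Or.inl ⟨n, rfl⟩⟩ : Z T))) =
      Set.range (pt T) := by
    ext y
    constructor
    · rintro ⟨_, ⟨n, rfl⟩, rfl⟩
      exact ⟨n, rfl⟩
    · rintro ⟨n, rfl⟩
      exact ⟨_, ⟨n, rfl⟩, rfl⟩
  rw [himg]
  obtain ⟨x, hx⟩ := x
  show x ∈ closure (Set.range (pt T))
  rcases hx with ⟨n, rfl⟩ | ⟨c, ⟨b0, hb0⟩, rfl⟩ | rfl
  · exact subset_closure ⟨n, rfl⟩
  · apply clos_of
    intro F K
    obtain ⟨r, hr, hr0, hrF⟩ := exists_max (F.filter (· < c)) b0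
    have hrc : r < c := by
      rcases hr with rfl | hr
      · exact hb0
      · exact (Finset.mem_filter.1 hr).2
    obtain ⟨m, hm, hmc, hmr⟩ := hT.inf r c hrc (max K (F.sup fun a => max (κ a r) (κ c a)))
    have hmK : K ≤ m := (le_max_left _ _).trans hm
    have hmF : ∀ a ∈ F, κ a r ≤ m ∧ κ c a ≤ m := by
      intro a ha
      have h1 : max (κ a r) (κ c a) ≤ F.sup fun a => max (κ a r) (κ c a) :=
        Finset.le_sup (f := fun a => max (κ a r) (κ c a)) ha
      have h2 := (h1.trans (le_max_right K _)).trans hm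
      exact ⟨(le_max_left _ _).trans h2, (le_max_right _ _).trans h2⟩
    refine ⟨pt T m, ⟨m, rfl⟩, ?_, ?_⟩
    · intro a ha
      show decide (m ∈ T a) = decide (c ≤ a)
      rw [decide_eq_decide]
      constructor
      · intro hma
        by_contra hca
        push Not at hca
        have har : a ≤ r := hrF a (Finset.mem_filter.2 ⟨ha, hca⟩)
        rcases har.lt_or_eq with h | h
        · exact hmr (hκ a r h m (hmF a ha).1 hma)
        · rw [h] at hma; exact hmr hma
      · intro hca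
        rcases hca.lt_or_eq with h | h
        · exact hκ c a h m (hmF a ha).2 hmc
        · rw [← h]; exact hmc
    · intro i hi
      show decide (i = m) = false
      rw [decide_eq_false_iff_not]
      omega
  · apply clos_of
    intro F K
    obtain ⟨b0⟩ : Nonempty Om := inferInstance
    obtain ⟨b, hb, hb0, hbF⟩ := exists_max F b0
    obtain ⟨d, hd⟩ := exists_gt b
    obtain ⟨m, hm, hmc, hmr⟩ := hT.inf b d hd (max K (F.sup fun a => κ a b))
    have hmK : K ≤ m := (le_max_left _ _).trans hm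
    have hmF : ∀ a ∈ F, κ a b ≤ m := by
      intro a ha
      have h1 : κ a b ≤ F.sup fun a => κ a b := Finset.le_sup (f := fun a => κ a b) ha
      exact (h1.trans (le_max_right K _)).trans hm
    refine ⟨pt T m, ⟨m, rfl⟩, ?_, ?_⟩
    · intro a ha
      show decide (m ∈ T a) = false
      rw [decide_eq_false_iff_not]
      intro hma
      rcases (hbF a ha).lt_or_eq with h | h
      · exact hmr (hκ a b h m (hmF a ha) hma)
      · rw [h] at hma; exact hmr hma
    · intro i hi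
      show decide (i = m) = false
      rw [decide_eq_false_iff_not]
      omega

theorem not_tight {T : Om → Set ℕ} (hT : IsTower T) :
    ∃ (A : Set (Z T)) (x : Z T), x ∈ closure A ∧
      ∀ B : Set (Z T), B ⊆ A → B.Countable → x ∉ closure B := by
  classical
  refine ⟨{x | ∃ c, (∃ b, b < c) ∧ x.1 = pc c}, ⟨pinf, Or.inr (Or.inr rfl)⟩, ?_, ?_⟩
  · rw [closure_subtype]
    apply clos_of
    intro F K
    obtain ⟨b0⟩ : Nonempty Om := inferInstance
    obtain ⟨b, hb, hb0, hbF⟩ := exists_max F b0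
    obtain ⟨c, hc⟩ := exists_gt b
    refine ⟨pc c, ⟨⟨pc c, Or.inr (Or.inl ⟨c, ⟨b, hc⟩, rfl⟩)⟩, ⟨c, ⟨b, hc⟩, rfl⟩, rfl⟩, ?_, ?_⟩
    · intro a ha
      show decide (c ≤ a) = false
      rw [decide_eq_false_iff_not, not_le]
      exact (hbF a ha).trans_lt hc
    · intro i hi
      rfl
  · intro B hBA hBc hx
    rcases B.eq_empty_or_nonempty with rfl | hne
    · simp at hx
    · obtain ⟨f, rfl⟩ := hBc.exists_eq_range hne
      have h1 : ∀ n, ∃ c, (∃ b, b < c) ∧ (f n).1 = pc c := fun n => hBA ⟨n, rfl⟩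
      choose c hc hfc using h1
      obtain ⟨a, ha⟩ := exists_bound c
      have hopen : IsOpen {y : Z T | y.1.1 a = false} := by
        have hcont : Continuous fun y : Z T => y.1.1 a :=
          (continuous_apply a).comp (continuous_fst.comp continuous_subtype_val)
        exact (isOpen_discrete ({false} : Set Bool)).preimage hcont
      obtain ⟨y, hy1, n, rfl⟩ := mem_closure_iff.1 hx _ hopen rfl
      have h2 : (f n).1.1 a = false := hy1
      rw [hfc n] at h2
      have h3 : decide (c n ≤ a) = false := h2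
      rw [decide_eq_false_iff_not] at h3
      exact h3 (ha n).le

/-- separated sets are separated by open sets on the part `ω₁` -/
theorem sepOm {H K : Set Big} (h1 : Disjoint (closure H) K) (h2 : Disjoint H (closure K)) :
    ∃ U V : Set Om, OpenSet U ∧ OpenSet V ∧ (∀ x, ¬ (x ∈ U ∧ x ∈ V)) ∧
      (∀ c, pc c ∈ H → c ∈ U) ∧ (∀ c, pc c ∈ K → c ∈ V) := by
  classical
  let _ : TopologicalSpace Om := Preorder.topology Om
  have _ : OrderTopology Om := ⟨rfl⟩
  have hcont : Continuous pc := by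
    unfold pc
    refine Continuous.prodMk (continuous_pi fun a => ?_) continuous_const
    rw [continuous_bool_rng true]
    have hset : (fun c : Om => decide (c ≤ a)) ⁻¹' {true} = Set.Iic a := by
      ext c
      simp
    rw [hset]
    refine ⟨isClosed_Iic, ?_⟩
    obtain ⟨b, hb, hmin⟩ := (wellFounded_lt : WellFounded ((· < ·) : Om → Om → Prop)).has_min
      {x | a < x} (exists_gt a)
    have hb' : a < b := hb
    have hIio : Set.Iic a = Set.Iio b := by
      ext c
      constructor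
      · intro hc
        exact lt_of_le_of_lt hc hb'
      · intro hc
        by_contra hcon
        have hac : a < c := not_le.mp hcon
        exact hmin c hac hc
    rw [hIio]
    exact isOpen_Iio
  have hd1 : Disjoint (closure (pc ⁻¹' H)) (pc ⁻¹' K) := by
    refine Disjoint.mono_left (hcont.closure_preimage_subset H) ?_
    exact Disjoint.preimage pc h1
  have hd2 : Disjoint (pc ⁻¹' H) (closure (pc ⁻¹' K)) := by
    refine Disjoint.mono_right (hcont.closure_preimage_subset K) ?_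
    exact Disjoint.preimage pc h2
  have hsep : SeparatedNhds (pc ⁻¹' H) (pc ⁻¹' K) :=
    separatedNhds_iff_disjoint.mpr (CompletelyNormalSpace.completely_normal hd1 hd2)
  obtain ⟨U, V, hU, hV, hHU, hKV, hUV⟩ := hsep
  have hop : ∀ W : Set Om, IsOpen W → OpenSet W := by
    intro W hW c hc hb
    obtain ⟨b, hbc, hsub⟩ := exists_Ioc_subset_of_mem_nhds (hW.mem_nhds hc) hb
    exact ⟨b, hbc, fun x hx1 hx2 => hsub ⟨hx1, hx2⟩⟩
  exact ⟨U, V, hop U hU, hop V hV, fun x hx => Set.disjoint_left.mp hUV hx.1 hx.2,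
    fun c hc => hHU hc, fun c hc => hKV hc⟩

open Classical in
theorem sepZ0_nhd {T : Om → Set ℕ} (hT : IsTower T) (U : Set Om) (hU : OpenSet U) (Q : ℕ → Prop)
    (c : Om) (hc : ∃ b, b < c) (hcU : c ∈ U)
    (hQ : ∃ b, b < c ∧ ∃ k : ℕ, ∀ m, k ≤ m → m ∈ T c → m ∉ T b → Q m) :
    ∃ N : Set Big, IsOpen N ∧ pc c ∈ N ∧ (∀ n, pt T n ∈ N → Q n) ∧
      (∀ d, pc d ∈ N → d ∈ U) ∧ pinf ∉ N := by
  obtain ⟨b1, hb1, hU1⟩ := hU c hcU hc
  obtain ⟨b2, hb2, k2, hk2⟩ := hQ
  obtain ⟨b, hb⟩ : ∃ b, b = max b1 b2 := ⟨_, rfl⟩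
  have hbc : b < c := by rw [hb]; exact max_lt hb1 hb2
  have hb1b : b1 ≤ b := by rw [hb]; exact le_max_left _ _
  have hb2b : b2 ≤ b := by rw [hb]; exact le_max_right _ _
  obtain ⟨k3, hk3⟩ : ∃ k : ℕ, ∀ m, k ≤ m → m ∈ T b2 → m ∈ T b := by
    rcases hb2b.lt_or_eq with h | h
    · exact hT.sub b2 b h
    · exact ⟨0, fun m _ hm => by rw [← h]; exact hm⟩
  refine ⟨{x : Big | x.1 c = true} ∩ {x : Big | x.1 b = false} ∩
    ⋂ i : Fin (max k2 k3), {x : Big | x.2 (i : ℕ) = false}, ?_, ?_, ?_, ?_, ?_⟩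
  · have o1 : ∀ (a : Om) (v : Bool), IsOpen {x : Big | x.1 a = v} := fun a v =>
      (isOpen_discrete ({v} : Set Bool)).preimage
        (show Continuous fun x : Big => x.1 a from (continuous_apply a).comp continuous_fst)
    have o2 : ∀ (a : ℕ) (v : Bool), IsOpen {x : Big | x.2 a = v} := fun a v =>
      (isOpen_discrete ({v} : Set Bool)).preimage
        (show Continuous fun x : Big => x.2 a from (continuous_apply a).comp continuous_snd)
    exact ((o1 c true).inter (o1 b false)).inter (isOpen_iInter_of_finite fun i => o2 _ _)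
  · refine ⟨⟨?_, ?_⟩, Set.mem_iInter.2 fun i => ?_⟩
    · show decide (c ≤ c) = true
      exact decide_eq_true le_rfl
    · show decide (c ≤ b) = false
      exact decide_eq_false (not_le.2 hbc)
    · rfl
  · rintro n ⟨⟨h1, h2⟩, h3⟩
    have h1' : n ∈ T c := of_decide_eq_true h1
    have h2' : n ∉ T b := of_decide_eq_false h2
    rw [Set.mem_iInter] at h3
    have hn : max k2 k3 ≤ n := by
      by_contra hlt
      have h4 := h3 ⟨n, not_le.1 hlt⟩
      have h5 : decide (n = n) = false := h4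
      exact of_decide_eq_false h5 rfl
    refine hk2 n ((le_max_left _ _).trans hn) h1' fun h6 => ?_
    exact h2' (hk3 n ((le_max_right _ _).trans hn) h6)
  · rintro d ⟨⟨h1, h2⟩, -⟩
    have h1' : d ≤ c := of_decide_eq_true h1
    have h2' : ¬ d ≤ b := of_decide_eq_false h2
    exact hU1 d (lt_of_le_of_lt hb1b (not_le.1 h2')) h1'
  · rintro ⟨⟨h1, -⟩, -⟩
    have h1' : false = true := h1
    exact Bool.false_ne_true h1'

theorem sepZ0_open {T : Om → Set ℕ} (hT : IsTower T) (U : Set Om) (hU : OpenSet U) (Q : ℕ → Prop)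
    (hQ : ∀ c, (∃ b, b < c) → c ∈ U →
      ∃ b, b < c ∧ ∃ k : ℕ, ∀ m, k ≤ m → m ∈ T c → m ∉ T b → Q m) :
    ∃ O : Set Big, IsOpen O ∧ (∀ c, (∃ b, b < c) → c ∈ U → pc c ∈ O) ∧ (∀ n, pt T n ∈ O → Q n) ∧
      (∀ d, pc d ∈ O → d ∈ U) ∧ pinf ∉ O := by
  refine ⟨⋃₀ {N : Set Big | IsOpen N ∧ (∀ n, pt T n ∈ N → Q n) ∧ (∀ d, pc d ∈ N → d ∈ U) ∧
    pinf ∉ N}, ?_, ?_, ?_, ?_, ?_⟩
  · exact isOpen_sUnion fun N hN => hN.1
  · intro c hc hcU
    obtain ⟨N, h1, h2, h3, h4, h5⟩ := sepZ0_nhd hT U hU Q c hc hcU (hQ c hc hcU)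
    exact ⟨N, ⟨h1, h3, h4, h5⟩, h2⟩
  · rintro n ⟨N, ⟨_, h3, _, _⟩, h⟩
    exact h3 n h
  · rintro d ⟨N, ⟨_, _, h4, _⟩, h⟩
    exact h4 d h
  · rintro ⟨N, ⟨_, _, _, h5⟩, h⟩
    exact h5 h

/-- the case where the point at infinity is in neither set -/
theorem sepZ0 {T : Om → Set ℕ} (hT : IsTower T) {H K : Set Big} (h1 : Disjoint (closure H) K)
    (h2 : Disjoint H (closure K)) :
    ∃ O O' : Set Big, IsOpen O ∧ IsOpen O' ∧ (∀ x ∈ Z T, ¬ (x ∈ O ∧ x ∈ O')) ∧
      (∀ c, (∃ b, b < c) → pc c ∈ H → pc c ∈ O) ∧ (∀ c, (∃ b, b < c) → pc c ∈ K → pc c ∈ O') := by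
  obtain ⟨U, V, hU, hV, hUV, hHU, hKV⟩ := sepOm h1 h2
  obtain ⟨A, hA⟩ := hT.sep U V hU hV hUV
  obtain ⟨O, o1, o2, o3, o4, o5⟩ := sepZ0_open hT U hU (fun n => n ∈ A)
    (fun c hc hcU => (hA c hc).1 hcU)
  obtain ⟨O', p1, p2, p3, p4, p5⟩ := sepZ0_open hT V hV (fun n => n ∉ A)
    (fun c hc hcV => (hA c hc).2 hcV)
  refine ⟨O, O', o1, p1, ?_, fun c hc hcH => o2 c hc (hHU c hcH),
    fun c hc hcK => p2 c hc (hKV c hcK)⟩
  rintro x hx ⟨hxO, hxO'⟩
  rcases hx with ⟨n, rfl⟩ | ⟨c, _, rfl⟩ | rfl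
  · exact p3 n hxO' (o3 n hxO)
  · exact hUV c ⟨o4 c hxO, p4 c hxO'⟩
  · exact o5 hxO

theorem cnz_bound (K : Set Big) (h : pinf ∉ closure K) :
    ∃ β : Om, ∀ c, pc c ∈ K → c ≤ β := by
  rw [mem_closure_iff] at h
  push Not at h
  obtain ⟨W, hWo, hW, hWK⟩ := h
  have h1 : W ∈ nhds (pinf.1, pinf.2) := hWo.mem_nhds hW
  rw [nhds_prod_eq, Filter.mem_prod_iff] at h1
  obtain ⟨W1, hW1, W2, hW2, hsub⟩ := h1
  obtain ⟨V, hVW, hVo, hV⟩ := mem_nhds_iff.1 hW1
  obtain ⟨I, u, hu, hIu⟩ := isOpen_pi_iff.1 hVo _ hV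
  obtain ⟨β, hβ⟩ := I.exists_le
  refine ⟨β, ?_⟩
  intro c hc
  by_contra hcon
  have hall : ∀ a ∈ I, ¬ c ≤ a := fun a ha hca => hcon (hca.trans (hβ a ha))
  have h2 : (pc c).1 ∈ V := by
    apply hIu
    intro a ha
    have h3 : (pc c).1 a = pinf.1 a := by
      show decide (c ≤ a) = false
      exact decide_eq_false (hall a ha)
    rw [h3]
    exact (hu a ha).2
  have h4 : (pc c).2 ∈ W2 := by
    have : (pc c).2 = pinf.2 := rfl
    rw [this]
    exact mem_of_mem_nhds hW2
  have h5 : pc c ∈ W := hsub ⟨hVW h2, h4⟩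
  have h6 : pc c ∈ W ∩ K := ⟨h5, hc⟩
  rw [hWK] at h6
  exact h6

theorem cnz_step {T : Om → Set ℕ} (H K O O' : Set Big) (hK : pinf ∉ closure K)
    (hO : IsOpen O) (hO' : IsOpen O') (hd : ∀ x ∈ Z T, ¬ (x ∈ O ∧ x ∈ O'))
    (hH1 : ∀ c, (∃ b, b < c) → pc c ∈ H → pc c ∈ O)
    (hK1 : ∀ c, (∃ b, b < c) → pc c ∈ K → pc c ∈ O') :
    ∃ O1 O2 : Set Big, IsOpen O1 ∧ IsOpen O2 ∧ (∀ x ∈ Z T, ¬ (x ∈ O1 ∧ x ∈ O2)) ∧
      (∀ c, (∃ b, b < c) → pc c ∈ H → pc c ∈ O1) ∧
      (∀ c, (∃ b, b < c) → pc c ∈ K → pc c ∈ O2) ∧ pinf ∈ O1 := by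
  obtain ⟨β, hβ⟩ := cnz_bound K hK
  have hcont : Continuous (fun x : Big => x.1 β) := (continuous_apply β).comp continuous_fst
  have hop : ∀ v : Bool, IsOpen {x : Big | x.1 β = v} := by
    intro v
    exact (isOpen_discrete {v}).preimage hcont
  refine ⟨O ∪ {x | x.1 β = false}, O' ∩ {x | x.1 β = true}, hO.union (hop false),
    hO'.inter (hop true), ?_, ?_, ?_, ?_⟩
  · rintro x hx ⟨h1 | h1, h2, h3⟩
    · exact hd x hx ⟨h1, h2⟩
    · have h1' : x.1 β = false := h1
      have h3' : x.1 β = true := h3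
      rw [h1'] at h3'
      exact Bool.false_ne_true h3'
  · intro c hc hcH
    exact Or.inl (hH1 c hc hcH)
  · intro c hc hcK
    refine ⟨hK1 c hc hcK, ?_⟩
    show decide (c ≤ β) = true
    exact decide_eq_true (hβ c hcK)
  · right
    rfl

theorem completelyNormal_Z {T : Om → Set ℕ} (hT : IsTower T) : CompletelyNormalSpace (Z T) := by
  refine ⟨?_⟩
  intro s t hst hst'
  rw [← separatedNhds_iff_disjoint]
  set H : Set Big := Subtype.val '' s with hH
  set K : Set Big := Subtype.val '' t with hK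
  have hcl : ∀ (r : Set (Z T)) (y : Z T), (y : Big) ∈ closure (Subtype.val '' r) → y ∈ closure r := by
    intro r y hy
    rw [closure_subtype]
    exact hy
  have h1 : Disjoint (closure H) K := by
    rw [Set.disjoint_left]
    rintro x hx ⟨y, hy, rfl⟩
    exact Set.disjoint_left.1 hst (hcl s y hx) hy
  have h2 : Disjoint H (closure K) := by
    rw [Set.disjoint_left]
    rintro x ⟨y, hy, rfl⟩ hx
    exact Set.disjoint_left.1 hst' hy (hcl t y hx)
  obtain ⟨O, O', hO, hO', hd, hH1, hK1⟩ := sepZ0 hT h1 h2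
  have key : ∃ O1 O2 : Set Big, IsOpen O1 ∧ IsOpen O2 ∧ (∀ x ∈ Z T, ¬ (x ∈ O1 ∧ x ∈ O2)) ∧
      (∀ c, (∃ b, b < c) → pc c ∈ H → pc c ∈ O1) ∧
      (∀ c, (∃ b, b < c) → pc c ∈ K → pc c ∈ O2) ∧ (pinf ∈ H → pinf ∈ O1) ∧
      (pinf ∈ K → pinf ∈ O2) := by
    by_cases c1 : pinf ∈ H
    · have c2 : pinf ∉ closure K := Set.disjoint_left.1 h2 c1
      obtain ⟨O1, O2, a1, a2, a3, a4, a5, a6⟩ := cnz_step H K O O' c2 hO hO' hd hH1 hK1
      exact ⟨O1, O2, a1, a2, a3, a4, a5, fun _ => a6, fun h => absurd (subset_closure h) c2⟩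
    · by_cases c2 : pinf ∈ K
      · have c3 : pinf ∉ closure H := Set.disjoint_right.1 h1 c2
        obtain ⟨O1, O2, a1, a2, a3, a4, a5, a6⟩ := cnz_step (T := T) K H O' O c3 hO' hO
          (fun x hx h => hd x hx ⟨h.2, h.1⟩) hK1 hH1
        exact ⟨O2, O1, a2, a1, fun x hx h => a3 x hx ⟨h.2, h.1⟩, a5, a4,
          fun h => absurd h c1, fun _ => a6⟩
      · exact ⟨O, O', hO, hO', hd, hH1, hK1, fun h => absurd h c1, fun h => absurd h c2⟩
  obtain ⟨O1, O2, ho1, ho2, hdis, hHc, hKc, hHi, hKi⟩ := key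
  have hptZ : ∀ x ∈ Z T, ∀ n, x.2 n = true → x = pt T n := by
    intro x hx n hn
    rcases hx with ⟨m, rfl⟩ | ⟨c, _, rfl⟩ | rfl
    · have hnm : n = m := by
        have : decide (n = m) = true := hn
        exact of_decide_eq_true this
      rw [hnm]
    · exact absurd hn (by show ¬ (false = true); simp)
    · exact absurd hn (by show ¬ (false = true); simp)
  have hopn : ∀ L : Set Big, IsOpen {x : Big | ∃ n, x.2 n = true ∧ pt T n ∈ L} := by
    intro L
    have : {x : Big | ∃ n, x.2 n = true ∧ pt T n ∈ L} =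
        ⋃ n ∈ {n | pt T n ∈ L}, {x : Big | x.2 n = true} := by
      ext x
      simp only [Set.mem_setOf_eq, Set.mem_iUnion, exists_prop]
      constructor
      · rintro ⟨n, h, h'⟩
        exact ⟨n, h', h⟩
      · rintro ⟨n, h, h'⟩
        exact ⟨n, h', h⟩
    rw [this]
    refine isOpen_biUnion fun n _ => ?_
    have hcont : Continuous (fun x : Big => x.2 n) := (continuous_apply n).comp continuous_snd
    exact (isOpen_discrete {true}).preimage hcont
  set G1 : Set Big := (O1 \ closure K) ∪ {x | ∃ n, x.2 n = true ∧ pt T n ∈ H} with hG1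
  set G2 : Set Big := (O2 \ closure H) ∪ {x | ∃ n, x.2 n = true ∧ pt T n ∈ K} with hG2
  have hG1o : IsOpen G1 := (ho1.sdiff isClosed_closure).union (hopn H)
  have hG2o : IsOpen G2 := (ho2.sdiff isClosed_closure).union (hopn K)
  have hdisG : ∀ x ∈ Z T, ¬ (x ∈ G1 ∧ x ∈ G2) := by
    rintro x hx ⟨a | ⟨n, hn, hn'⟩, b | ⟨k, hk, hk'⟩⟩
    · exact hdis x hx ⟨a.1, b.1⟩
    · apply a.2
      rw [hptZ x hx k hk]
      exact subset_closure hk'
    · apply b.2
      rw [hptZ x hx n hn]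
      exact subset_closure hn'
    · rw [← hptZ x hx n hn] at hn'
      rw [← hptZ x hx k hk] at hk'
      exact Set.disjoint_left.1 h1 (subset_closure hn') hk'
  have hHG : ∀ x ∈ Z T, x ∈ H → x ∈ G1 := by
    intro x hx hxH
    have hxK : x ∉ closure K := Set.disjoint_left.1 h2 hxH
    rcases hx with ⟨m, rfl⟩ | ⟨c, hc, rfl⟩ | rfl
    · right
      exact ⟨m, decide_eq_true rfl, hxH⟩
    · left
      exact ⟨hHc c hc hxH, hxK⟩
    · left
      exact ⟨hHi hxH, hxK⟩
  have hKG : ∀ x ∈ Z T, x ∈ K → x ∈ G2 := by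
    intro x hx hxK
    have hxH : x ∉ closure H := Set.disjoint_right.1 h1 hxK
    rcases hx with ⟨m, rfl⟩ | ⟨c, hc, rfl⟩ | rfl
    · right
      exact ⟨m, decide_eq_true rfl, hxK⟩
    · left
      exact ⟨hKc c hc hxK, hxH⟩
    · left
      exact ⟨hKi hxK, hxH⟩
  refine ⟨Subtype.val ⁻¹' G1, Subtype.val ⁻¹' G2, hG1o.preimage continuous_subtype_val,
    hG2o.preimage continuous_subtype_val, ?_, ?_, ?_⟩
  · intro y hy
    exact hHG y.1 y.2 ⟨y, hy, rfl⟩
  · intro y hy
    exact hKG y.1 y.2 ⟨y, hy, rfl⟩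
  · rw [Set.disjoint_left]
    intro y hy hy'
    exact hdisG y.1 y.2 ⟨hy, hy'⟩

end Pool.Agent.Helper835.TS
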